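import Pool.Agent.helper5.SYM.SpecA
import Pool.Agent.helper89.CT.JZ1
import Pool.Agent.helper89.CT.JZ2

set_option autoImplicit false

namespace Pool.Agent.SYM
open Finset CT Polynomial

theorem CMN_ite (a b : ℕ) (v : ZMod 2) :
    (if a = 0 then (if b = 0 then v else 0) else 0) = if a + b = 0 then v else 0 := by
  by_cases ha : a = 0 <;> by_cases hb : b = 0 <;> simp [ha, hb]

theorem CMN : CMN_stmt := by
  intro W _ R L L' e hp
  induction hp generalizing e with
  | nil => intros; rfl
  | cons u p ih =>
    intro hn he ha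
    show ∑ t : Fin 3, (if ls e u t = 0 then NL R _ (sm e u t) else 0) =
      ∑ t : Fin 3, (if ls e u t = 0 then NL R _ (sm e u t) else 0)
    refine Finset.sum_congr rfl fun t _ => ?_
    obtain ⟨h1, h2⟩ := JZ2_sm e he (ha u (List.mem_cons_self ..)) t
    rw [List.nodup_cons] at hn
    rw [ih (sm e u t) hn.2 h1]
    intro v hv i
    apply h2 (v, i)
    · rintro rfl
      exact hn.1 hv
    · exact ha v (List.mem_cons_of_mem _ hv) i
  | swap u w l =>
    intro hn he ha
    rw [List.nodup_cons] at hn
    have hne : w ≠ u := by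
      rintro rfl
      exact hn.1 (List.mem_cons_self ..)
    have e1 : ∀ a b : W, NL R (a :: b :: l) e =
        ∑ t : Fin 3, ∑ t' : Fin 3, (if ls e a t + ls (sm e a t) b t' = 0 then
          NL R l (sm (sm e a t) b t') else 0) := by
      intro a b
      show ∑ t : Fin 3, (if ls e a t = 0 then
        (∑ t' : Fin 3, if ls (sm e a t) b t' = 0 then NL R l (sm (sm e a t) b t') else 0)
          else 0) = _
      refine Finset.sum_congr rfl fun t _ => ?_
      have e2 : ∀ t', (if ls e a t + ls (sm e a t) b t' = 0 then
          NL R l (sm (sm e a t) b t') else 0) = if ls e a t = 0 then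
          (if ls (sm e a t) b t' = 0 then NL R l (sm (sm e a t) b t') else 0) else 0 :=
        fun t' => (CMN_ite _ _ _).symm
      rw [Finset.sum_congr rfl fun t' _ => e2 t']
      by_cases h0 : ls e a t = 0
      · simp only [h0, if_true]
      · simp only [h0, if_false, Finset.sum_const_zero]
    rw [e1, e1, Finset.sum_comm]
    refine Finset.sum_congr rfl fun t' _ => Finset.sum_congr rfl fun t _ => ?_
    obtain ⟨a1, a2⟩ := JZ1_sm e he hne (ha w (by simp)) (ha u (by simp)) t t'
    rw [a1, a2]
  | trans p q ih1 ih2 =>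
    intro hn he ha
    rw [ih1 e hn he ha, ih2 e (p.nodup_iff.1 hn) he]
    intro u hu
    exact ha u (p.mem_iff.2 hu)

end Pool.Agent.SYM
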